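import Pool.Agent.Helper2.SV.GoalsC

set_option autoImplicit false

namespace Pool.Agent.Helper40.SV

open Pool.Agent.Helper2.SV

/-- The complement graph on `X`. -/
def HG {V : Type} (G : SimpleGraph V) (X : Set V) : SimpleGraph V where
  Adj x y := x ∈ X ∧ y ∈ X ∧ x ≠ y ∧ ¬ G.Adj x y
  symm := ⟨fun _ _ h => ⟨h.2.1, h.1, h.2.2.1.symm, fun h' => h.2.2.2 h'.symm⟩⟩
  loopless := ⟨fun _ h => h.2.2.1 rfl⟩

/-- Closed walk of odd length `n`. -/
def PP {V : Type} (H : SimpleGraph V) (n : ℕ) : Prop :=
  Odd n ∧ ∃ c : ℕ → V, c 0 = c n ∧ ∀ i < n, H.Adj (c i) (c (i + 1))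

theorem goalODDC : G_ODDC := by
  intro V _ G X hX
  classical
  set H := HG G X with hH
  have hnc : ¬ H.Colorable 2 := by
    rintro ⟨C⟩
    refine hX {x | x ∈ X ∧ C x = 0} {x | x ∈ X ∧ C x = 1} ?_ ?_ ?_
    · intro x hx y hy hxy
      by_contra hG
      have : H.Adj x y := ⟨hx.1, hy.1, hxy, hG⟩
      exact C.valid this (hx.2.trans hy.2.symm)
    · intro x hx y hy hxy
      by_contra hG
      have : H.Adj x y := ⟨hx.1, hy.1, hxy, hG⟩
      exact C.valid this (hx.2.trans hy.2.symm)
    · intro x hx
      have h2 : ∀ k : Fin 2, k = 0 ∨ k = 1 := by decide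
      rcases h2 (C x) with h | h
      · exact Or.inl ⟨hx, h⟩
      · exact Or.inr ⟨hx, h⟩
  have hex : ∃ n, PP H n := by
    rw [SimpleGraph.two_colorable_iff_forall_loop_even] at hnc
    push Not at hnc
    obtain ⟨u, w, hw⟩ := hnc
    refine ⟨w.length, by simpa using hw, fun i => w.getVert i, ?_, ?_⟩
    · simp
    · intro i hi
      exact w.adj_getVert_succ hi
  obtain ⟨hodd, c, hc0, hc⟩ := Nat.find_spec hex
  have hmin : ∀ m < Nat.find hex, ¬ PP H m := fun m hm => Nat.find_min hex hm
  generalize Nat.find hex = n at hodd hc0 hc hmin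
  have hn1 : n ≠ 1 := by
    rintro rfl
    have := hc 0 (by norm_num)
    rw [hc0] at this
    exact H.loopless.irrefl _ this
  have hn3 : 3 ≤ n := by
    obtain ⟨k, hk⟩ := hodd
    omega
  have hinj : ∀ i j, i < j → j < n → c i ≠ c j := by
    intro i j hij hjn hcc
    have h1 : ¬ Odd (j - i) := by
      intro ho
      refine hmin (j - i) (by omega) ⟨ho, fun t => c (i + t), ?_, ?_⟩
      · simp only [add_zero]
        rw [hcc]
        congr 1
        omega
      · intro t ht
        have := hc (i + t) (by omega)
        rwa [add_assoc] at this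
    have h2 : ¬ Odd (n - (j - i)) := by
      intro ho
      refine hmin (n - (j - i)) (by omega)
        ⟨ho, fun t => if t ≤ i then c t else c (t + (j - i)), ?_, ?_⟩
      · have e1 : ¬ (n - (j - i) ≤ i) := by omega
        simp only [Nat.zero_le, if_true, e1, if_false]
        rw [hc0]
        congr 1
        omega
      · intro t ht
        rcases lt_trichotomy t i with h | h | h
        · have a1 : t ≤ i := by omega
          have a2 : t + 1 ≤ i := by omega
          simp only [a1, a2, if_true]
          exact hc t (by omega)
        · have a1 : t ≤ i := by omega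
          have a2 : ¬ (t + 1 ≤ i) := by omega
          simp only [a1, a2, if_true, if_false]
          have := hc j hjn
          rw [← hcc] at this
          have e : t + 1 + (j - i) = j + 1 := by omega
          rw [e, h]
          exact this
        · have a1 : ¬ (t ≤ i) := by omega
          have a2 : ¬ (t + 1 ≤ i) := by omega
          simp only [a1, a2, if_false]
          have := hc (t + (j - i)) (by omega)
          have e : t + 1 + (j - i) = t + (j - i) + 1 := by omega
          rw [e]
          exact this
    rw [Nat.not_odd_iff_even] at h1 h2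
    have : Even ((j - i) + (n - (j - i))) := h1.add h2
    have e : (j - i) + (n - (j - i)) = n := by omega
    rw [e] at this
    exact (Nat.not_even_iff_odd.mpr hodd) this
  have hchord : ∀ i j, i + 2 ≤ j → j < n → j ≤ i + n - 2 → ¬ H.Adj (c i) (c j) := by
    intro i j hij hjn hji hadj
    have h1 : ¬ Odd (j - i + 1) := by
      intro ho
      refine hmin (j - i + 1) (by omega)
        ⟨ho, fun t => if t ≤ j - i then c (i + t) else c i, ?_, ?_⟩
      · have e1 : ¬ (j - i + 1 ≤ j - i) := by omega
        simp only [Nat.zero_le, if_true, e1, if_false, add_zero]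
      · intro t ht
        rcases lt_or_eq_of_le (Nat.lt_succ_iff.mp ht) with h | h
        · have a1 : t ≤ j - i := by omega
          have a2 : t + 1 ≤ j - i := by omega
          simp only [a1, a2, if_true]
          have := hc (i + t) (by omega)
          rwa [add_assoc] at this
        · have a1 : t ≤ j - i := by omega
          have a2 : ¬ (t + 1 ≤ j - i) := by omega
          simp only [a1, a2, if_true, if_false]
          have e : i + t = j := by omega
          rw [e]
          exact hadj.symm
    have h2 : ¬ Odd (n - (j - i) + 1) := by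
      intro ho
      refine hmin (n - (j - i) + 1) (by omega)
        ⟨ho, fun t => if t ≤ i then c t else c (t + (j - i) - 1), ?_, ?_⟩
      · have e1 : ¬ (n - (j - i) + 1 ≤ i) := by omega
        simp only [Nat.zero_le, if_true, e1, if_false]
        rw [hc0]
        congr 1
        omega
      · intro t ht
        rcases lt_trichotomy t i with h | h | h
        · have a1 : t ≤ i := by omega
          have a2 : t + 1 ≤ i := by omega
          simp only [a1, a2, if_true]
          exact hc t (by omega)
        · have a1 : t ≤ i := by omega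
          have a2 : ¬ (t + 1 ≤ i) := by omega
          simp only [a1, a2, if_true, if_false]
          have e : t + 1 + (j - i) - 1 = j := by omega
          rw [e, h]
          exact hadj
        · have a1 : ¬ (t ≤ i) := by omega
          have a2 : ¬ (t + 1 ≤ i) := by omega
          simp only [a1, a2, if_false]
          have := hc (t + (j - i) - 1) (by omega)
          have e : t + 1 + (j - i) - 1 = t + (j - i) - 1 + 1 := by omega
          rw [e]
          exact this
    rw [Nat.not_odd_iff_even] at h1 h2
    have : Even ((j - i + 1) + (n - (j - i) + 1)) := h1.add h2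
    have e : (j - i + 1) + (n - (j - i) + 1) = n + 2 := by omega
    rw [e] at this
    obtain ⟨a, ha⟩ := this
    obtain ⟨b, hb⟩ := hodd
    omega
  have : NeZero n := ⟨by omega⟩
  have : Fact (1 < n) := ⟨by omega⟩
  have hval1 : ∀ i : ZMod n, (i + 1).val = (i.val + 1) % n := by
    intro i
    rw [ZMod.val_add, ZMod.val_one]
  have hlt : ∀ i : ZMod n, i.val < n := fun i => ZMod.val_lt i
  have hstep : ∀ i : ZMod n, H.Adj (c i.val) (c (i + 1).val) := by
    intro i
    have h := hc i.val (hlt i)
    rw [hval1]
    rcases Nat.lt_or_ge (i.val + 1) n with h' | h'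
    · rwa [Nat.mod_eq_of_lt h']
    · have e : i.val + 1 = n := by have := hlt i; omega
      have e2 : (i.val + 1) % n = 0 := Nat.mod_eq_zero_of_dvd ⟨1, by omega⟩
      have e3 : c (i.val + 1) = c n := congrArg c e
      rw [e2, hc0]
      rw [e3] at h
      exact h
  have hinj' : ∀ i j : ZMod n, i ≠ j → c i.val ≠ c j.val := by
    intro i j hij
    have hne : i.val ≠ j.val := fun h => hij (ZMod.val_injective n h)
    rcases lt_or_gt_of_ne hne with h | h
    · exact hinj _ _ h (hlt j)
    · exact (hinj _ _ h (hlt i)).symm
  have hnext : ∀ i j : ZMod n, j.val = i.val + 1 → j = i + 1 := by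
    intro i j h
    apply ZMod.val_injective n
    rw [hval1, Nat.mod_eq_of_lt (by rw [← h]; exact hlt j), h]
  have hwrap : ∀ i j : ZMod n, i.val = 0 → j.val = n - 1 → i = j + 1 := by
    intro i j hi hj
    apply ZMod.val_injective n
    rw [hval1, hj]
    have e : n - 1 + 1 = n := by omega
    rw [e, Nat.mod_self, hi]
  have key : ∀ i j : ZMod n, i.val < j.val → H.Adj (c i.val) (c j.val) →
      j = i + 1 ∨ i = j + 1 := by
    intro i j hij hadj
    by_contra hcon
    push Not at hcon
    have h1 : j.val ≠ i.val + 1 := fun h => hcon.1 (hnext i j h)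
    have h2 : ¬ (i.val = 0 ∧ j.val = n - 1) := fun h => hcon.2 (hwrap i j h.1 h.2)
    have h3 := hlt j
    exact hchord i.val j.val (by omega) h3 (by omega) hadj
  refine ⟨n, hn3, hodd, fun i => c i.val, fun i => (hstep i).1, ?_, ?_⟩
  · intro i j hij
    by_contra hne
    exact hinj' i j hne hij
  · intro i j hij
    constructor
    · rintro hG (h | h)
      · subst h
        exact (hstep i).2.2.2 hG
      · subst h
        exact (hstep j).2.2.2 hG.symm
    · intro hcon
      by_contra hG
      have hadj : H.Adj (c i.val) (c j.val) :=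
        ⟨(hstep i).1, (hstep j).1, hinj' i j hij, hG⟩
      have hne : i.val ≠ j.val := fun h => hij (ZMod.val_injective n h)
      rcases lt_or_gt_of_ne hne with h | h
      · exact hcon (key i j h hadj)
      · exact hcon ((key j i h hadj.symm).symm)

end Pool.Agent.Helper40.SV
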